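import Pool.Agent.H57.MC11203

set_option autoImplicit false

namespace Pool.Agent.Results.MP_c7ed95_nt.FivePoints

open Pool.Agent.H57.MC

theorem result : IsStrong 11202 ∧
    ∃ a b r : ℝ, IsMCCircle 11202 a b r ∧ (onCircle a b r).Finite ∧
      (onCircle a b r).ncard = 5 := by
  have h : (onCircle MC11203.c.a0 MC11203.c.b0 MC11203.c.rho).ncard = 5 := by
    rw [MC11203.c.onCircle_ncard MC11203.h2]
    decide +kernel
  exact ⟨⟨⟨_, _, _, MC11203.mc⟩, MC11203.nonMC⟩, _, _, _, MC11203.mc,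
    Set.finite_of_ncard_ne_zero (by rw [h]; decide), h⟩

end Pool.Agent.Results.MP_c7ed95_nt.FivePoints
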